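import Pool.Agent.helper59.BR.SpecH

/-!
# Row brh:HAI: `|D| η(1) / |cz P|` is integral at `M`
-/

set_option autoImplicit false

namespace Pool.Agent.BR

open Pool.Agent.helper58.DC Pool.Agent.DI Pool.Agent.GR Pool.Agent.OB Pool.Agent.DR Pool.Agent.FI Pool.Agent.FI3 Pool.Agent.FI4 Pool.Agent.LE

theorem HAI (hB2 : B2_stmt) : HAI_stmt := by
  classical
  intro p M hS G _ _ D x θ χ lo P hP η hη
  have hηI : η ∈ IrrOn (cz P) := hη.1
  obtain ⟨x', -, hd⟩ := lo.dfl P hP η hηI hη.2.symm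
  obtain ⟨⟨n, hn0, hn1, -⟩, -, hint, -⟩ := (hB2 G (cz P)).2 η hηI
  have hp := hS.pr
  have hcard := hd.card
  unfold pp at hcard
  set a : ℕ := padicValNat p (Nat.card (Cz (cz P) x')) with ha
  have := Fact.mk hp
  obtain ⟨c, hc⟩ : p ^ a ∣ Nat.card (Cz (cz P) x') := by
    rw [ha]
    exact pow_padicValNat_dvd
  have hCpos : 0 < Nat.card (Cz (cz P) x') := Nat.card_pos
  have hcp : ¬ p ∣ c := by
    rintro ⟨c', hc'⟩
    have hc0 : c' ≠ 0 := by
      rintro rfl
      rw [hc', mul_zero, mul_zero] at hc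
      omega
    have h1 : padicValNat p (Nat.card (Cz (cz P) x')) = a + (1 + padicValNat p c') := by
      rw [hc, hc', padicValNat.mul (pow_ne_zero _ hp.ne_zero) (mul_ne_zero hp.ne_zero hc0),
        padicValNat.prime_pow, padicValNat.mul hp.ne_zero hc0, padicValNat.self hp.one_lt]
    omega
  have hnC : (n : ℂ) ≠ 0 := by exact_mod_cast hn0.ne'
  have hLC : (Nat.card (cz P) : ℂ) ≠ 0 := by
    have h : 0 < Nat.card (cz P) := Nat.card_pos
    exact_mod_cast h.ne'
  have hccI : IsIntegral ℤ (cc η (cls (cz P) x')) := cc_cls_int le_rfl hηI x'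
  have h2 := cc_cls hηI x'
  rw [hn1, hc] at h2
  push_cast at h2
  have hcI : IsIntegral ℤ ((c : ℂ) * cc η (cls (cz P) x')) := by
    have h := isIntegral_algebraMap (R := ℤ) (A := ℂ) (x := (c : ℤ))
    have h' : IsIntegral ℤ (c : ℂ) := by simpa using h
    exact h'.mul hccI
  have hcM : ¬ InM M ((c : ℂ) * cc η (cls (cz P) x')) := by
    intro h5
    rcases InM.or hS (IntAt.natCast hS c) (IntAt.of_isIntegral hS hccI) h5 with h6 | h6
    · exact hcp ((InM.natCast hS c).1 h6)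
    · exact hd.ne h6
  rw [hn1]
  refine ⟨⟨η x', hint x'⟩, ⟨_, hcI⟩, fun h => hcM (InM.coe hS h), ?_⟩
  change (Nat.card D : ℂ) * n / Nat.card (cz P) * ((c : ℂ) * cc η (cls (cz P) x')) = η x'
  rw [hcard]
  push_cast
  have h3 : (n : ℂ) * (η x' / n) = η x' := mul_div_cancel₀ _ hnC
  have h4 : (p : ℂ) ^ a * n / Nat.card (cz P) * ((c : ℂ) * cc η (cls (cz P) x')) =
      n * ((p : ℂ) ^ a * c * cc η (cls (cz P) x')) / Nat.card (cz P) := by ring
  rw [h4, h2, ← mul_assoc, mul_comm (n : ℂ), mul_assoc, h3, mul_div_assoc, mul_comm, div_mul_cancel₀ _ hLC]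

end Pool.Agent.BR
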