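import Pool.Agent.helper45.BR.Spec

/-!
# Project br, module CPB: comparison of displacements (an argument of H. Cartan)
-/

set_option autoImplicit false

open Complex Metric Set Filter Topology MeasureTheory MPS Pool.Agent.helper98.ILF
  Pool.Agent.helper16.Multibrot

noncomputable section

namespace BR

theorem CPB_maps {g : ℂ → ℂ} {U : Set ℂ} (h : RD g U) (k : ℕ) : MapsTo (g^[k]) U U :=
  h.mt.iterate k

theorem CPB_diff {g : ℂ → ℂ} {U : Set ℂ} (h : RD g U) (k : ℕ) : DifferentiableOn ℂ (g^[k]) U := by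
  induction k with
  | zero => exact differentiableOn_id
  | succ k ih =>
    rw [Function.iterate_succ]
    exact ih.comp h.di h.mt

/-- uniform smallness of the displacement of any iterate. -/
theorem CPB_A (hT : V3.TMO_stmt) {g : ℂ → ℂ} {U : Set ℂ} (h : RD g U) (x : ℂ) (r : ℝ) (hr : 0 < r)
    (hx : ball x r ⊆ U) (K : Set ℂ) (hK : K ⊆ U) (hKc : IsCompact K) (ε : ℝ) (hε : 0 < ε) :
    ∃ η > (0 : ℝ), ∀ k : ℕ, (∀ w ∈ ball x r, ‖g^[k] w - w‖ ≤ η) → ∀ z ∈ K, ‖g^[k] z - z‖ ≤ ε := by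
  by_contra hcon
  push Not at hcon
  have hc : ∀ j : ℕ, ∃ k : ℕ, (∀ w ∈ ball x r, ‖g^[k] w - w‖ ≤ 1 / ((j : ℝ) + 1)) ∧
      ∃ z ∈ K, ε < ‖g^[k] z - z‖ := fun j => hcon (1 / ((j : ℝ) + 1)) (by positivity)
  choose k hk using hc
  set u : Ultrafilter ℕ := Ultrafilter.of atTop with hu
  have hle : (u : Filter ℕ) ≤ atTop := Ultrafilter.of_le _
  obtain ⟨F, hF, hlim⟩ := hT u (fun j => g^[k j]) U h.op (fun y hy => by
    obtain ⟨r', hr', hsub⟩ := Metric.isOpen_iff.1 h.op y hy
    refine ⟨r', hr', 4, Filter.Eventually.of_forall fun j => ⟨(CPB_diff h _).mono hsub, fun w hw => ?_⟩⟩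
    have := h.bd (CPB_maps h (k j) (hsub hw))
    rw [mem_ball_zero_iff] at this
    exact this.le)
  have hFx : ∀ w ∈ ball x r, F w = w := by
    intro w hw
    have h1 : Tendsto (fun j => g^[k j] w) u (𝓝 (F w)) := hlim.tendsto_at (hx hw)
    have h2 : Tendsto (fun j => g^[k j] w - w) u (𝓝 0) := by
      have h3 : Tendsto (fun j : ℕ => 1 / ((j : ℝ) + 1)) u (𝓝 0) :=
        tendsto_one_div_add_atTop_nhds_zero_nat.mono_left hle
      exact squeeze_zero_norm (fun j => (hk j).1 w hw) h3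
    have h4 : Tendsto (fun j => g^[k j] w) u (𝓝 w) := by
      have := h2.add_const w
      simpa using this
    exact tendsto_nhds_unique h1 h4
  have hxU : x ∈ U := hx (mem_ball_self hr)
  have hFU : EqOn F id U := by
    refine (hF.analyticOnNhd h.op).eqOn_of_preconnected_of_eventuallyEq analyticOnNhd_id
      h.co.isPreconnected hxU ?_
    filter_upwards [ball_mem_nhds x hr] with w hw
    exact hFx w hw
  have hU : TendstoUniformlyOn (fun j => g^[k j]) F u K :=
    (tendstoLocallyUniformlyOn_iff_forall_isCompact h.op).1 hlim K hK hKc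
  rw [Metric.tendstoUniformlyOn_iff] at hU
  obtain ⟨j, hj⟩ := (hU ε hε).exists
  obtain ⟨z, hz, hz2⟩ := (hk j).2
  have h5 := hj z hz
  rw [hFU (hK hz), dist_comm, dist_eq_norm] at h5
  exact absurd h5 (not_lt.2 hz2.le)

theorem CPB (hT : V3.TMO_stmt) : CPB_stmt := by
  intro g U h x ρ hρ hx L hL hLc
  obtain ⟨δ₀, hδ₀, hsub⟩ := hLc.exists_cthickening_subset_open h.op hL
  set δ₁ : ℝ := δ₀ / 2 with hδ₁
  have hδ₁0 : 0 < δ₁ := by positivity
  have hL₁ : cthickening (2 * δ₁) L ⊆ U := by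
    have : 2 * δ₁ = δ₀ := by rw [hδ₁]; ring
    rw [this]
    exact hsub
  have hLcc : IsCompact (cthickening (2 * δ₁) L) := hLc.cthickening
  have hball : ball x (ρ / 2) ⊆ U :=
    (ball_subset_closedBall.trans (closedBall_subset_closedBall (by linarith))).trans hx
  obtain ⟨η, hη, hA⟩ := CPB_A hT h x (ρ / 2) (by positivity) hball _ hL₁ hLcc (δ₁ / 4) (by positivity)
  set C : ℝ := δ₁ / η + 2 * δ₁ / ρ with hC
  have hC0 : 0 < C := by positivity
  have hCη : δ₁ / C ≤ η := by
    rw [div_le_iff₀ hC0, hC]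
    have h1 : η * (δ₁ / η) = δ₁ := by field_simp
    have h2 : 0 ≤ η * (2 * δ₁ / ρ) := by positivity
    nlinarith
  have hCρ : δ₁ / C ≤ ρ / 2 := by
    rw [div_le_iff₀ hC0, hC]
    have h1 : ρ / 2 * (2 * δ₁ / ρ) = δ₁ := by field_simp
    have h2 : 0 ≤ ρ / 2 * (δ₁ / η) := by positivity
    nlinarith
  refine ⟨C, δ₁ / 4, by positivity, L, hL, hLc, fun m hm s hs hw z hz => ?_⟩
  by_contra hcon
  rw [not_le] at hcon
  set s' : ℝ := ‖g^[m] z - z‖ with hs'
  have hs'0 : 0 < s' := lt_of_le_of_lt (by positivity) hcon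
  have hs'δ : s' ≤ δ₁ / 4 := hm z hz
  set q : ℕ := ⌊δ₁ / s'⌋₊ with hq
  have hq1 : (q : ℝ) ≤ δ₁ / s' := Nat.floor_le (by positivity)
  have hq2 : δ₁ / s' < q + 1 := Nat.lt_floor_add_one _
  have hqs : (q : ℝ) * s ≤ δ₁ / C := by
    have h1 : (q : ℝ) * s ≤ δ₁ / s' * s := mul_le_mul_of_nonneg_right hq1 hs
    refine h1.trans ?_
    rw [div_mul_eq_mul_div, div_le_div_iff₀ hs'0 hC0]
    nlinarith
  -- the displacement on the small ball
  have hsmall : ∀ i : ℕ, i ≤ q → ∀ w ∈ ball x (ρ / 2), ‖g^[m * i] w - w‖ ≤ i * s := by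
    intro i
    induction i with
    | zero => intro _ w _; simp
    | succ i ih =>
      intro hi w hwx
      have h1 := ih (by omega) w hwx
      have h2 : ‖g^[m * i] w - w‖ ≤ ρ / 2 := by
        refine h1.trans ?_
        refine (mul_le_mul_of_nonneg_right (Nat.cast_le.2 (by omega : i ≤ q)) hs).trans ?_
        exact hqs.trans hCρ
      have h3 : g^[m * i] w ∈ closedBall x ρ := by
        rw [mem_closedBall, dist_eq_norm]
        rw [mem_ball, dist_eq_norm] at hwx
        calc ‖g^[m * i] w - x‖ = ‖(g^[m * i] w - w) + (w - x)‖ := by ring_nf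
          _ ≤ ‖g^[m * i] w - w‖ + ‖w - x‖ := norm_add_le _ _
          _ ≤ ρ := by linarith
      have h4 := hw _ h3
      have h5 : g^[m * (i + 1)] w = g^[m] (g^[m * i] w) := by
        rw [← Function.iterate_add_apply]
        congr 1
        ring_nf
      calc ‖g^[m * (i + 1)] w - w‖ = ‖(g^[m] (g^[m * i] w) - g^[m * i] w) + (g^[m * i] w - w)‖ := by
            rw [h5]; ring_nf
        _ ≤ s + i * s := (norm_add_le _ _).trans (add_le_add h4 h1)
        _ = ((i + 1 : ℕ) : ℝ) * s := by push_cast; ring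
  have hbig : ∀ i : ℕ, i ≤ q → ∀ w ∈ cthickening (2 * δ₁) L, ‖g^[m * i] w - w‖ ≤ δ₁ / 4 := by
    intro i hi
    refine hA _ fun w hwx => (hsmall i hi w hwx).trans ?_
    refine (mul_le_mul_of_nonneg_right (Nat.cast_le.2 hi) hs).trans ?_
    exact hqs.trans hCη
  have hcb : closedBall z (2 * δ₁) ⊆ cthickening (2 * δ₁) L := closedBall_subset_cthickening hz _
  -- the Lipschitz estimate
  have hlip : ∀ i : ℕ, i ≤ q → ‖(g^[m * i] (g^[m] z) - g^[m] z) - (g^[m * i] z - z)‖ ≤ 1 / 4 * s' := by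
    intro i hi
    have hd : DifferentiableOn ℂ (fun w => g^[m * i] w - w) U := (CPB_diff h _).sub differentiableOn_id
    have h1 : ∀ w ∈ closedBall z δ₁, closedBall w δ₁ ⊆ closedBall z (2 * δ₁) := by
      intro w hwz
      refine closedBall_subset_closedBall' ?_
      rw [mem_closedBall] at hwz
      linarith
    have h2 := Convex.norm_image_sub_le_of_norm_deriv_le (𝕜 := ℂ) (f := fun w => g^[m * i] w - w)
      (s := closedBall z δ₁) (C := 1 / 4) (x := z) (y := g^[m] z) ?_ ?_ (convex_closedBall _ _)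
      (mem_closedBall_self hδ₁0.le) ?_
    · exact h2
    · intro w hwz
      refine hd.differentiableAt (h.op.mem_nhds (hL₁ (hcb ?_)))
      exact h1 w hwz (mem_closedBall_self hδ₁0.le)
    · intro w hwz
      have h3 := Complex.norm_deriv_le_of_forall_mem_sphere_norm_le (f := fun w => g^[m * i] w - w)
        (c := w) (R := δ₁) (C := δ₁ / 4) hδ₁0
        (hd.diffContOnCl_ball ((h1 w hwz).trans (hcb.trans hL₁))) ?_
      · refine h3.trans (le_of_eq ?_)
        field_simp
      · intro v hv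
        exact hbig i hi v (hcb (h1 w hwz (sphere_subset_closedBall hv)))
    · rw [mem_closedBall, dist_eq_norm]
      exact hs'δ.trans (by linarith)
  have hsum : ∀ i : ℕ, i ≤ q → ‖(g^[m * i] z - z) - i * (g^[m] z - z)‖ ≤ i * (1 / 4 * s') := by
    intro i
    induction i with
    | zero => intro _; simp
    | succ i ih =>
      intro hi
      have h1 := ih (by omega)
      have h2 := hlip i (by omega)
      have h5 : g^[m * (i + 1)] z = g^[m * i] (g^[m] z) := by
        rw [← Function.iterate_add_apply]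
        congr 1
      have h6 : (g^[m * (i + 1)] z - z) - ((i + 1 : ℕ) : ℂ) * (g^[m] z - z) =
          ((g^[m * i] z - z) - i * (g^[m] z - z)) +
          ((g^[m * i] (g^[m] z) - g^[m] z) - (g^[m * i] z - z)) := by
        rw [h5]; push_cast; ring
      rw [h6]
      refine (norm_add_le _ _).trans ((add_le_add h1 h2).trans (le_of_eq ?_))
      push_cast
      ring
  have hq3 := hsum q le_rfl
  have hq4 := hbig q le_rfl z (hcb (mem_closedBall_self (by positivity)))
  have hq5 : (q : ℝ) * s' ≤ ‖g^[m * q] z - z‖ + q * (1 / 4 * s') := by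
    calc (q : ℝ) * s' = ‖(q : ℂ) * (g^[m] z - z)‖ := by rw [norm_mul, Complex.norm_natCast]
      _ = ‖(g^[m * q] z - z) - ((g^[m * q] z - z) - q * (g^[m] z - z))‖ := by ring_nf
      _ ≤ ‖g^[m * q] z - z‖ + ‖(g^[m * q] z - z) - q * (g^[m] z - z)‖ := norm_sub_le _ _
      _ ≤ _ := by linarith
  have hq6 : δ₁ < (q + 1) * s' := by
    rw [div_lt_iff₀ hs'0] at hq2
    exact hq2
  nlinarith

end BR
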